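import Pool.Agent.Helper83.RB.St

set_option autoImplicit false

/-!
Module RWR of project RB (MP_97dcad_al): rewriting with a multilinear identity.
-/

namespace Pool.Agent.Helper66.RB

open Pool.Agent.Helper83.RB
open scoped BigOperators

/-- Appending the same tail to two words of the same length preserves `<`. -/
lemma append_lt_of_lt {r : ℕ} (t : List (Fin r)) :
    ∀ (A C : List (Fin r)), A.length = C.length → A < C → A ++ t < C ++ t := by
  intro A
  induction A with
  | nil =>
    intro C hl h
    have hC : C = [] := List.length_eq_zero_iff.1 (by simpa using hl.symm)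
    subst hC
    exact absurd h (lt_irrefl _)
  | cons a A ih =>
    intro C hl h
    cases C with
    | nil => simp at hl
    | cons c C =>
      rw [List.cons_append, List.cons_append]
      rw [List.cons_lt_cons_iff] at h ⊢
      rcases h with h | ⟨h1, h2⟩
      · exact Or.inl h
      · refine Or.inr ⟨h1, ih C ?_ h2⟩
        simpa using hl

lemma append_lt_left {r : ℕ} (l : List (Fin r)) :
    ∀ (A C : List (Fin r)), A < C → l ++ A < l ++ C := by
  intro A C h
  induction l with
  | nil => simpa using h
  | cons a l ih =>
    rw [List.cons_append, List.cons_append, List.cons_lt_cons_iff]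
    exact Or.inr ⟨rfl, ih⟩

lemma ev_append {r : ℕ} {B : Type} [Monoid B] (y : Fin r → B) (u v : List (Fin r)) :
    ev y (u ++ v) = ev y u * ev y v := by
  simp [ev]

lemma ev_flatten {r : ℕ} {B : Type} [Monoid B] (y : Fin r → B) (L : List (List (Fin r))) :
    ev y L.flatten = (L.map (ev y)).prod := by
  induction L with
  | nil => simp [ev]
  | cons a L ih => rw [List.flatten_cons, ev_append, ih, List.map_cons, List.prod_cons]

lemma ofFn_perm {α : Type} {d : ℕ} (σ : Equiv.Perm (Fin d)) (u : Fin d → α) :
    (List.ofFn fun i => u (σ i)).Perm (List.ofFn u) :=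
  Equiv.Perm.ofFn_comp_perm σ u

lemma length_flatten_perm {r d : ℕ} (σ : Equiv.Perm (Fin d)) (u : Fin d → List (Fin r)) :
    (List.ofFn fun i => u (σ i)).flatten.length = (List.ofFn u).flatten.length :=
  (ofFn_perm σ u).flatten.length_eq

theorem hRWR : StRWR := by
  intro p d r n _ B _ _ hPI y M hM
  obtain ⟨a, ha, hid⟩ := hPI
  obtain ⟨σ₀, hσ₀⟩ : ∃ σ₀, a σ₀ ≠ 0 := by
    by_contra hcon
    push Not at hcon
    exact ha (funext hcon)
  haveI : Finite {w : List (Fin r) // w.length = n} :=
    inferInstanceAs (Finite (List.Vector (Fin r) n))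
  have key : ∀ w : {w : List (Fin r) // w.length = n}, ev y w.1 ∈ M := by
    intro w
    induction w using WellFoundedLT.induction with
    | ind w ih =>
      obtain ⟨w, hw⟩ := w
      rcases hM w hw with h | ⟨l, t, u, hwu, hlt⟩
      · exact h
      · have hx := hid (fun i => ev y (u (σ₀⁻¹ i)))
        -- the word attached to a permutation
        have hterm : ∀ σ : Equiv.Perm (Fin d),
            ev y l * (List.ofFn fun i => ev y (u (σ₀⁻¹ (σ i)))).prod * ev y t =
              ev y (l ++ (List.ofFn fun i => u ((σ₀⁻¹ * σ) i)).flatten ++ t) := by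
          intro σ
          rw [ev_append, ev_append, ev_flatten, List.map_ofFn]
          rfl
        have hsum : ∑ σ, a σ • ev y (l ++ (List.ofFn fun i => u ((σ₀⁻¹ * σ) i)).flatten ++ t) = 0 := by
          have h2 : ev y l * (∑ σ, a σ • (List.ofFn fun i => ev y (u (σ₀⁻¹ (σ i)))).prod) * ev y t
              = 0 := by
            rw [hx]; simp
          rw [Finset.mul_sum, Finset.sum_mul] at h2
          rw [← h2]
          refine Finset.sum_congr rfl fun σ _ => ?_
          rw [← hterm σ, mul_smul_comm, smul_mul_assoc]
        rw [← Finset.add_sum_erase _ _ (Finset.mem_univ σ₀)] at hsum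
        have hrest : ∑ σ ∈ Finset.univ.erase σ₀,
            a σ • ev y (l ++ (List.ofFn fun i => u ((σ₀⁻¹ * σ) i)).flatten ++ t) ∈ M := by
          refine Submodule.sum_mem _ fun σ hσ => Submodule.smul_mem _ _ ?_
          have hσ' : σ ≠ σ₀ := (Finset.mem_erase.1 hσ).1
          have hne : σ₀⁻¹ * σ ≠ 1 := by
            intro h1
            exact hσ' (inv_mul_eq_one.1 h1).symm
          have hlen : (l ++ (List.ofFn fun i => u ((σ₀⁻¹ * σ) i)).flatten ++ t).length = n := by
            rw [← hw, hwu]
            simp only [List.length_append]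
            rw [length_flatten_perm]
          refine ih ⟨_, hlen⟩ ?_
          show (l ++ (List.ofFn fun i => u ((σ₀⁻¹ * σ) i)).flatten ++ t) < w
          rw [hwu]
          refine append_lt_of_lt t _ _ ?_ (append_lt_left l _ _ (hlt _ hne))
          simp only [List.length_append]
          rw [length_flatten_perm]
        have h0 : a σ₀ • ev y (l ++ (List.ofFn fun i => u ((σ₀⁻¹ * σ₀) i)).flatten ++ t) ∈ M := by
          rw [eq_neg_of_add_eq_zero_left hsum]
          exact Submodule.neg_mem _ hrest
        have h1 : (l ++ (List.ofFn fun i => u ((σ₀⁻¹ * σ₀) i)).flatten ++ t) = w := by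
          rw [hwu]
          simp
        rw [h1] at h0
        exact (Submodule.smul_mem_iff M hσ₀).1 h0
  intro w hw
  exact key ⟨w, hw⟩

end Pool.Agent.Helper66.RB
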